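import Pool.Agent.Q122.Gon.Tight

set_option autoImplicit false

/-!
# MP_d208ff_co: both conjectures on gonality-tight graphs are false

There is a gonality-tight graph with 8 vertices and genus 8 whose gonality sequence starts with
5, 6 and whose third gonality is at most 8. So neither the genus nor the gonality sequence of a
gonality-tight graph is as conjectured.
-/

namespace Pool.Agent.Results.MP_d208ff_co.GenusEight

open Q122.Gon

/-- Q1: every gonality-tight graph `G` has genus `binom(gon_1(G), 2)`. -/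
def GenusConjecture : Prop :=
  ∀ (V E : Type) [Fintype V] [Fintype E] [DecidableEq V] (G : MGraph V E), G.Connected →
    G.dgonR 2 = G.dgonR 1 + 1 →
    (Fintype.card E : ℤ) - (Fintype.card V : ℤ) + 1 = ((G.dgonR 1).choose 2 : ℤ)

/-- Q2: for every gonality-tight graph `G`, with `k = gon_1(G)` and `g = binom(k, 2)`, one has
`gon_r(G) = g + r` for `r ≥ g` and `gon_r(G) = l (k + 1) - h` for `1 ≤ r < g`, where
`1 ≤ l ≤ k - 2`, `0 ≤ h ≤ l` and `r = l (l + 3) / 2 - h`. -/
def SequenceConjecture : Prop :=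
  ∀ (V E : Type) [Fintype V] [Fintype E] [DecidableEq V] (G : MGraph V E), G.Connected →
    G.dgonR 2 = G.dgonR 1 + 1 →
    (∀ r : ℕ, (G.dgonR 1).choose 2 ≤ r → G.dgonR r = (G.dgonR 1).choose 2 + r) ∧
    (∀ r l h : ℕ, 1 ≤ r → r < (G.dgonR 1).choose 2 → 1 ≤ l → l ≤ G.dgonR 1 - 2 → h ≤ l →
      2 * r + 2 * h = l * (l + 3) → G.dgonR r + h = l * (G.dgonR 1 + 1))

theorem result :
    (∃ (V E : Type) (_ : Fintype V) (_ : Fintype E) (_ : DecidableEq V) (G : MGraph V E),
      G.Connected ∧ G.dgonR 1 = 5 ∧ G.dgonR 2 = 6 ∧ G.dgonR 3 ≤ 8 ∧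
      (Fintype.card E : ℤ) - (Fintype.card V : ℤ) + 1 = 8) ∧
    ¬ GenusConjecture ∧ ¬ SequenceConjecture := by
  have hc : (Fintype.card (Fin 15) : ℤ) - (Fintype.card (Fin 8) : ℤ) + 1 = 8 := by norm_num
  refine ⟨⟨Fin 8, Fin 15, inferInstance, inferInstance, inferInstance, Tight.G,
    Tight.connected, Tight.gon_one, Tight.gon_two, Tight.gon_three, hc⟩, fun h => ?_, fun h => ?_⟩
  · have h1 := h (Fin 8) (Fin 15) Tight.G Tight.connected
      (by rw [Tight.gon_one, Tight.gon_two])
    rw [Tight.gon_one, hc] at h1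
    norm_num [Nat.choose] at h1
  · have h1 := (h (Fin 8) (Fin 15) Tight.G Tight.connected
      (by rw [Tight.gon_one, Tight.gon_two])).2 3 2 2 (by norm_num)
      (by rw [Tight.gon_one]; norm_num [Nat.choose]) (by norm_num)
      (by rw [Tight.gon_one]; norm_num) le_rfl (by norm_num)
    rw [Tight.gon_one] at h1
    have h2 := Tight.gon_three
    omega

end Pool.Agent.Results.MP_d208ff_co.GenusEight
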